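import Pool.Agent.H.MP_fc6e23_an.F

set_option autoImplicit false

namespace Pool.Agent.Results.MP_fc6e23_an.No

open Pool.Agent.H.MP_fc6e23_an

theorem result (H : Type) [NormedAddCommGroup H] [InnerProductSpace ℂ H] [CompleteSpace H]
    (b : HilbertBasis ℕ ℂ H) (p : ℝ) (h1 : 1 < p) (h2 : p ≠ 2) :
    ∃ S : Submodule ℂ (H →L[ℂ] H), (∀ x, x ∈ S ↔ SQ b p x < ⊤) ∧
      ∃ T : S →ₗ[ℂ] S, (∀ x, SQ b p (T x) ≤ SQ b p x) ∧ (∀ x, SQ b 1 (T x) ≤ SQ b 1 x) ∧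
        (∀ x, ‖(T x : H →L[ℂ] H)‖ ≤ ‖(x : H →L[ℂ] H)‖) ∧
        ¬ PW (fun x : S => SQ b p x)
          {f | ∃ y, SQ b (p / (p - 1)) y < ⊤ ∧ f = fun x : S => tr b (x * y)} T :=
  ⟨Sp b p (zero_lt_one.trans h1), fun _ => Iff.rfl, main b _ h1 h2⟩

end Pool.Agent.Results.MP_fc6e23_an.No
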